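import Pool.Agent.H91.Sym.A2

/-! Module A3 of project SYM: integrability. -/

set_option autoImplicit false

open MeasureTheory Set Filter Topology
open scoped ContDiff Pointwise

namespace Pool.Agent.H84.Sym

variable {E : Type*} [NormedAddCommGroup E] [InnerProductSpace ℝ E]

/-! ### Uniform convexity -/

/-- Strong monotonicity of the gradient. -/
theorem pot_mono {U : E → ℝ} {t C : ℝ} (hU : Pot U t C) (x y : E) :
    fderiv ℝ U x (y - x) + t * ‖y - x‖ ^ 2 ≤ fderiv ℝ U y (y - x) := by
  set v := y - x with hv
  have hd : Differentiable ℝ (fderiv ℝ U) :=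
    (hU.smooth.fderiv_right (m := 1) (by norm_num)).differentiable (by norm_num)
  have hderiv : ∀ s : ℝ, HasDerivAt (fun s : ℝ => fderiv ℝ U (x + s • v) v)
      (fderiv ℝ (fderiv ℝ U) (x + s • v) v v) s := by
    intro s
    have h1 : HasDerivAt (fun s : ℝ => x + s • v) v s := by
      simpa using ((hasDerivAt_id s).smul_const v).const_add x
    have h2 : HasDerivAt (fun s : ℝ => fderiv ℝ U (x + s • v))
        (fderiv ℝ (fderiv ℝ U) (x + s • v) v) s :=
      (hd (x + s • v)).hasFDerivAt.comp_hasDerivAt s h1
    have h3 := h2.clm_apply (hasDerivAt_const s v)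
    simpa using h3
  obtain ⟨s, -, hs⟩ := exists_hasDerivAt_eq_slope (fun s : ℝ => fderiv ℝ U (x + s • v) v)
    (fun s => fderiv ℝ (fderiv ℝ U) (x + s • v) v v) (zero_lt_one)
    (fun s _ => (hderiv s).continuousAt.continuousWithinAt) (fun s _ => hderiv s)
  have h4 := hU.hess (x + s • v) v
  have hy : x + (1 : ℝ) • v = y := by rw [hv]; simp
  simp only [hy, zero_smul, add_zero, sub_zero, div_one] at hs
  linarith

variable [FiniteDimensional ℝ E] [MeasurableSpace E] [BorelSpace E]

theorem integrable_mu_iff {U : E → ℝ} (hU : Continuous U) {F : E → ℝ} :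
    Integrable F (mu U) ↔ Integrable (fun x => F x * Real.exp (-U x)) := by
  unfold mu
  rw [integrable_withDensity_iff]
  · simp only [ENNReal.toReal_ofReal (Real.exp_pos _).le]
  · exact (ENNReal.continuous_ofReal.comp (Real.continuous_exp.comp hU.neg)).measurable
  · exact Eventually.of_forall fun x => ENNReal.ofReal_lt_top

end Pool.Agent.H84.Sym
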