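import Pool.Agent.H91.Sym.A1
import Pool.Agent.H91.Sym.A2
import Pool.Agent.H29.Sym.A3

/-! Bounded continuous functions and the basic integral relations (project SYM). -/

set_option autoImplicit false

open MeasureTheory Set Filter Topology
open scoped ContDiff Pointwise

namespace Pool.Agent.H84.Sym

variable {E : Type*} [NormedAddCommGroup E] [InnerProductSpace ℝ E]
    [FiniteDimensional ℝ E] [MeasurableSpace E] [BorelSpace E]
variable {ι : Type*} [Fintype ι]

namespace C29

/-- Bounded continuous functions. -/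
def BC (F : E → ℝ) : Prop := Continuous F ∧ ∃ A : ℝ, ∀ x, |F x| ≤ A

omit [InnerProductSpace ℝ E] [FiniteDimensional ℝ E] [MeasurableSpace E] [BorelSpace E] in
theorem BC.const (c : ℝ) : BC (fun _ : E => c) := ⟨continuous_const, |c|, fun _ => le_rfl⟩

omit [InnerProductSpace ℝ E] [FiniteDimensional ℝ E] [MeasurableSpace E] [BorelSpace E] in
theorem BC.add {F G : E → ℝ} (hF : BC F) (hG : BC G) : BC (fun x => F x + G x) := by
  obtain ⟨hF, A, hA⟩ := hF
  obtain ⟨hG, B, hB⟩ := hG
  exact ⟨hF.add hG, A + B, fun x => (abs_add_le _ _).trans (add_le_add (hA x) (hB x))⟩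

omit [InnerProductSpace ℝ E] [FiniteDimensional ℝ E] [MeasurableSpace E] [BorelSpace E] in
theorem BC.mul {F G : E → ℝ} (hF : BC F) (hG : BC G) : BC (fun x => F x * G x) := by
  obtain ⟨hF, A, hA⟩ := hF
  obtain ⟨hG, B, hB⟩ := hG
  refine ⟨hF.mul hG, A * B, fun x => ?_⟩
  rw [abs_mul]
  exact mul_le_mul (hA x) (hB x) (abs_nonneg _) ((abs_nonneg _).trans (hA x))

omit [InnerProductSpace ℝ E] [FiniteDimensional ℝ E] [MeasurableSpace E] [BorelSpace E] in
theorem BC.neg {F : E → ℝ} (hF : BC F) : BC (fun x => -F x) := by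
  obtain ⟨hF, A, hA⟩ := hF
  exact ⟨hF.neg, A, fun x => by rw [abs_neg]; exact hA x⟩

omit [InnerProductSpace ℝ E] [FiniteDimensional ℝ E] [MeasurableSpace E] [BorelSpace E] in
theorem BC.sub {F G : E → ℝ} (hF : BC F) (hG : BC G) : BC (fun x => F x - G x) := by
  simpa only [sub_eq_add_neg] using hF.add hG.neg

omit [InnerProductSpace ℝ E] [FiniteDimensional ℝ E] [MeasurableSpace E] [BorelSpace E] in
theorem BC.sq {F : E → ℝ} (hF : BC F) : BC (fun x => F x ^ 2) := by
  have h := BC.mul hF hF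
  simp only [← pow_two] at h
  exact h

omit [InnerProductSpace ℝ E] [FiniteDimensional ℝ E] [MeasurableSpace E] [BorelSpace E]
  [Fintype ι] in
theorem BC.sum {s : Finset ι} {F : ι → E → ℝ} (hF : ∀ i, BC (F i)) :
    BC (fun x => ∑ i ∈ s, F i x) := by
  classical
  induction s using Finset.induction_on with
  | empty => simpa using BC.const 0
  | insert a s ha ih =>
    have h := (hF a).add ih
    simpa only [Finset.sum_insert ha] using h

omit [InnerProductSpace ℝ E] [FiniteDimensional ℝ E] [MeasurableSpace E] [BorelSpace E] in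
theorem BC.of_compact {F : E → ℝ} (hF : Continuous F) (hc : HasCompactSupport F) : BC F := by
  obtain ⟨A, hA⟩ := hc.exists_bound_of_continuous hF
  exact ⟨hF, A, fun x => by simpa [Real.norm_eq_abs] using hA x⟩

omit [InnerProductSpace ℝ E] in
theorem BC.integrable {F : E → ℝ} (hF : BC F) (μ : Measure E) [IsFiniteMeasure μ] :
    Integrable F μ := by
  obtain ⟨hF, A, hA⟩ := hF
  exact Integrable.of_bound hF.aestronglyMeasurable A
    (Eventually.of_forall fun x => by simpa [Real.norm_eq_abs] using hA x)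

/-! ### Regularity of `D` and `LO` -/

omit [FiniteDimensional ℝ E] [MeasurableSpace E] [BorelSpace E] in
theorem D_cont {f : E → ℝ} (hf : ContDiff ℝ 1 f) (e : E) : Continuous (D e f) := by
  unfold D
  exact (hf.continuous_fderiv (by norm_num)).clm_apply continuous_const

omit [FiniteDimensional ℝ E] [MeasurableSpace E] [BorelSpace E] in
theorem D_smooth {f : E → ℝ} (hf : ContDiff ℝ ∞ f) (e : E) : ContDiff ℝ ∞ (D e f) := by
  unfold D
  exact (hf.fderiv_right (m := ∞) (by simp)).clm_apply contDiff_const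

omit [FiniteDimensional ℝ E] [MeasurableSpace E] [BorelSpace E] in
theorem D_supp {f : E → ℝ} (hc : HasCompactSupport f) (e : E) : HasCompactSupport (D e f) := by
  unfold D
  exact hc.fderiv_apply ℝ e

omit [FiniteDimensional ℝ E] [MeasurableSpace E] [BorelSpace E] in
theorem tst_D {f : E → ℝ} (hf : Tst f) (e : E) : Tst (D e f) :=
  ⟨D_smooth hf.1 e, D_supp hf.2 e⟩

omit [FiniteDimensional ℝ E] [MeasurableSpace E] [BorelSpace E] in
theorem tst_BC {f : E → ℝ} (hf : Tst f) : BC f := BC.of_compact hf.1.continuous hf.2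

omit [FiniteDimensional ℝ E] [MeasurableSpace E] [BorelSpace E] in
theorem D_BC {f : E → ℝ} (hf : ContDiff ℝ 1 f) (hc : HasCompactSupport f) (e : E) :
    BC (D e f) := BC.of_compact (D_cont hf e) (D_supp hc e)

omit [FiniteDimensional ℝ E] [MeasurableSpace E] [BorelSpace E] in
theorem LO_BC (b : OrthonormalBasis ι ℝ E) {U u : E → ℝ} (hU : ContDiff ℝ 1 U) (hu : Tst u) :
    BC (LO b U u) := by
  unfold LO
  refine (BC.sum fun i => tst_BC (tst_D (tst_D hu _) _)).sub (BC.sum fun i => ?_)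
  refine BC.of_compact ((D_cont hU _).mul (tst_D hu _).1.continuous) ?_
  exact (tst_D hu _).2.mul_left

omit [FiniteDimensional ℝ E] [MeasurableSpace E] [BorelSpace E] in
theorem grad_BC {f : E → ℝ} (hf : ContDiff ℝ 1 f) (hc : HasCompactSupport f) :
    BC (fun x => ‖fderiv ℝ f x‖ ^ 2) := by
  refine BC.of_compact ((hf.continuous_fderiv (by norm_num)).norm.pow 2) ?_
  have := (hc.fderiv (𝕜 := ℝ)).norm
  rw [show (fun x => ‖fderiv ℝ f x‖ ^ 2) = (fun x => ‖fderiv ℝ f x‖) * (fun x => ‖fderiv ℝ f x‖) by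
    funext x; simp [sq]]
  exact this.mul_left

/-- Green with a constant subtracted. -/
theorem green_sub (b : OrthonormalBasis ι ℝ E) {U u f : E → ℝ} (hU : ContDiff ℝ 1 U)
    (hu : Tst u) (hf : ContDiff ℝ 1 f) (c : ℝ) :
    ∫ x, LO b U u x * (f x - c) ∂(mu U) = - ∫ x, (∑ i, D (b i) u x * D (b i) f x) ∂(mu U) := by
  have h := green b (f := fun x => f x - c) hU (by simpa using contDiff_infty.mp hu.1 2)
    (hf.sub contDiff_const) (Or.inl hu.2)
  rw [h]
  have hD : ∀ i x, D (b i) (fun x => f x - c) x = D (b i) f x := by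
    intro i x
    simp only [D]
    rw [fderiv_sub_const]
  simp only [hD]

/-- The three basic relations between the integrals. -/
theorem rel1 (b : OrthonormalBasis ι ℝ E) {U u f : E → ℝ} {t C : ℝ} (hU : Pot U t C)
    (hu : Tst u) (hf : ContDiff ℝ 1 f) (hc : HasCompactSupport f) (c : ℝ) :
    ∫ x, (LO b U u x + (f x - c)) ^ 2 ∂(mu U) =
      (∫ x, (LO b U u x) ^ 2 ∂(mu U))
        - 2 * (∫ x, (∑ i, D (b i) u x * D (b i) f x) ∂(mu U))
        + ∫ x, (f x - c) ^ 2 ∂(mu U) := by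
  have := isFinite_mu hU
  have hU1 : ContDiff ℝ 1 U := hU.smooth.of_le (by norm_num)
  have hL := LO_BC b hU1 hu
  have hφ : BC (fun x => f x - c) := (BC.of_compact hf.continuous hc).sub (BC.const c)
  have h1 := (hL.sq).integrable (mu U)
  have h2 := (hL.mul hφ).integrable (mu U)
  have h3 := (hφ.sq).integrable (mu U)
  have hg := green_sub b hU1 hu hf c
  calc ∫ x, (LO b U u x + (f x - c)) ^ 2 ∂(mu U)
      = ∫ x, ((LO b U u x) ^ 2 + 2 * (LO b U u x * (f x - c))) + (f x - c) ^ 2 ∂(mu U) := by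
        congr 1; funext x; ring
    _ = _ := by
        have h12 : Integrable (fun x => (LO b U u x) ^ 2 + 2 * (LO b U u x * (f x - c))) (mu U) :=
          h1.add (h2.const_mul 2)
        rw [integral_add h12 h3, integral_add h1 (h2.const_mul 2),
          integral_const_mul, hg]
        ring

/-- Variance. -/
theorem rel2 {U f : E → ℝ} {t C : ℝ} (hU : Pot U t C) (hf : ContDiff ℝ 1 f)
    (hc : HasCompactSupport f) (c : ℝ) (hm : c * (mu U).real univ = ∫ x, f x ∂(mu U)) :
    (mu U).real univ * (∫ x, f x ^ 2 ∂(mu U)) - (∫ x, f x ∂(mu U)) ^ 2 =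
      (mu U).real univ * ∫ x, (f x - c) ^ 2 ∂(mu U) := by
  have := isFinite_mu hU
  have hφ : BC f := BC.of_compact hf.continuous hc
  have h1 := (hφ.sq).integrable (mu U)
  have h2 := hφ.integrable (mu U)
  have : ∫ x, (f x - c) ^ 2 ∂(mu U) =
      (∫ x, f x ^ 2 ∂(mu U)) - 2 * c * (∫ x, f x ∂(mu U)) + c ^ 2 * (mu U).real univ := by
    calc ∫ x, (f x - c) ^ 2 ∂(mu U)
        = ∫ x, (f x ^ 2 - 2 * c * f x) + c ^ 2 ∂(mu U) := by
          congr 1; funext x; ring
      _ = _ := by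
        have h12 : Integrable (fun x => f x ^ 2 - 2 * c * f x) (mu U) :=
          h1.sub (h2.const_mul (2 * c))
        rw [integral_add h12 (integrable_const _),
          integral_sub h1 (h2.const_mul _), integral_const_mul, integral_const]
        simp [mul_comm]
  rw [this, ← hm]
  ring

/-- Young. -/
theorem rel3 (b : OrthonormalBasis ι ℝ E) {U u f : E → ℝ} {t C : ℝ} (hU : Pot U t C)
    (hu : Tst u) (hf : ContDiff ℝ 1 f) (hc : HasCompactSupport f) (s : ℝ) :
    2 * s * (∫ x, (∑ i, D (b i) u x * D (b i) f x) ∂(mu U)) ≤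
      (∫ x, ‖fderiv ℝ f x‖ ^ 2 ∂(mu U)) + s ^ 2 * ∫ x, ‖fderiv ℝ u x‖ ^ 2 ∂(mu U) := by
  have := isFinite_mu hU
  have hu1 : ContDiff ℝ 1 u := hu.1.of_le (by exact_mod_cast (le_top : (1 : ℕ∞) ≤ ⊤))
  have h1 := (grad_BC hf hc).integrable (mu U)
  have h2 := (grad_BC hu1 hu.2).integrable (mu U)
  have h3 := (BC.sum (s := Finset.univ) fun i => (D_BC hu1 hu.2 (b i)).mul
    (D_BC hf hc (b i))).integrable (mu U)
  rw [← integral_const_mul, ← integral_const_mul, ← integral_add h1 (h2.const_mul _)]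
  refine integral_mono (h3.const_mul _) (h1.add (h2.const_mul _)) fun x => ?_
  simp only
  rw [norm_fderiv_sq b f x, norm_fderiv_sq b u x, Finset.mul_sum, Finset.mul_sum,
    ← Finset.sum_add_distrib]
  refine Finset.sum_le_sum fun i _ => ?_
  nlinarith [sq_nonneg (D (b i) f x - s * D (b i) u x)]

/-- The final estimate. -/
theorem final_est (b : OrthonormalBasis ι ℝ E) {U u : E → ℝ} {t C lam : ℝ} (hU : Pot U t C)
    [IsProbabilityMeasure (mu U)] (hlam : 0 < lam) (hpc : GPC (mu U) (1 / lam)) (hu : Tst u) :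
    ∫ x, (LO b U u x + lam * (u x - ∫ y, u y ∂(mu U))) ^ 2 ∂(mu U) ≤
      (∫ x, (LO b U u x) ^ 2 ∂(mu U)) - lam * ∫ x, ‖fderiv ℝ u x‖ ^ 2 ∂(mu U) := by
  have hu1 : ContDiff ℝ 1 u := hu.1.of_le (by exact_mod_cast (le_top : (1 : ℕ∞) ≤ ⊤))
  have hM : (mu U).real univ = 1 := by simp
  set c := ∫ y, u y ∂(mu U) with hcdef
  have h2 := rel2 hU hu1 hu.2 c (by rw [hM, mul_one])
  have h3 := hpc u hu1 hu.2
  rw [h2, hM, one_mul, one_mul] at h3
  have h1 := rel1 b hU hu (f := fun x => lam * u x) (contDiff_const.mul hu1)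
    (hu.2.mul_left) (lam * c)
  have hD : ∀ i x, D (b i) (fun x => lam * u x) x = lam * D (b i) u x := by
    intro i x
    simp only [D]
    rw [fderiv_const_mul (hu1.differentiable (by norm_num)).differentiableAt]
    simp
  have hP : ∫ x, (∑ i, D (b i) u x * D (b i) (fun x => lam * u x) x) ∂(mu U) =
      lam * ∫ x, ‖fderiv ℝ u x‖ ^ 2 ∂(mu U) := by
    rw [← integral_const_mul]
    congr 1
    funext x
    rw [norm_fderiv_sq b u x, Finset.mul_sum]
    refine Finset.sum_congr rfl fun i _ => ?_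
    rw [hD]; ring
  have hV : ∫ x, (lam * u x - lam * c) ^ 2 ∂(mu U) = lam ^ 2 * ∫ x, (u x - c) ^ 2 ∂(mu U) := by
    have hpt : ∀ x, (lam * u x - lam * c) ^ 2 = lam ^ 2 * (u x - c) ^ 2 := fun x => by ring
    simp only [hpt]
    rw [integral_const_mul]
  rw [hP, hV] at h1
  have h4 : ∫ x, (LO b U u x + lam * (u x - c)) ^ 2 ∂(mu U) =
      ∫ x, (LO b U u x + (lam * u x - lam * c)) ^ 2 ∂(mu U) := by
    congr 1; funext x; ring
  rw [h4, h1]
  have h5 : lam ^ 2 * ∫ x, (u x - c) ^ 2 ∂(mu U) ≤ lam * ∫ x, ‖fderiv ℝ u x‖ ^ 2 ∂(mu U) := by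
    calc _ ≤ lam ^ 2 * (1 / lam * ∫ x, ‖fderiv ℝ u x‖ ^ 2 ∂(mu U)) :=
          mul_le_mul_of_nonneg_left h3 (by positivity)
      _ = _ := by field_simp
  linarith

end C29

end Pool.Agent.H84.Sym
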