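import Pool.Agent.H29.Sym.BC
import Pool.Agent.H69.Sym.B3

/-! Module C of project SYM: the Poincare inequality from coercivity, near-eigenfunctions. -/

set_option autoImplicit false

open MeasureTheory Set Filter Topology
open scoped ContDiff Pointwise

namespace Pool.Agent.H84.Sym

variable {E : Type*} [NormedAddCommGroup E] [InnerProductSpace ℝ E]
    [FiniteDimensional ℝ E] [MeasurableSpace E] [BorelSpace E]
variable {ι : Type*} [Fintype ι]

open C29

theorem gpc_of_coer (b : OrthonormalBasis ι ℝ E) {U : E → ℝ} {t C k : ℝ} (hU : Pot U t C)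
    (hk : 0 < k) (hco : ∀ u : E → ℝ, Tst u →
      k * ∫ x, ‖fderiv ℝ u x‖ ^ 2 ∂(mu U) ≤ ∫ x, (LO b U u x) ^ 2 ∂(mu U)) :
    GPC (mu U) (1 / k) := by
  intro f hf hc
  have := isFinite_mu hU
  have hM := mu_univ_pos hU.smooth.continuous (isFinite_mu hU)
  set M := (mu U).real univ with hMdef
  set c := (∫ x, f x ∂(mu U)) / M with hcdef
  have hm : c * M = ∫ x, f x ∂(mu U) := by rw [hcdef]; field_simp
  rw [rel2 hU hf hc c hm]
  have key : ∫ x, (f x - c) ^ 2 ∂(mu U) ≤ 1 / k * ∫ x, ‖fderiv ℝ f x‖ ^ 2 ∂(mu U) := by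
    refine le_of_forall_pos_le_add fun ε hε => ?_
    obtain ⟨u, hu, hue⟩ := dense_range b hU hf hc hm hε
    have e1 := rel1 b hU hu hf hc c
    have e3 := rel3 b hU hu hf hc k
    have e4 := hco u hu
    have e5 : 2 * (∫ x, (∑ i, D (b i) u x * D (b i) f x) ∂(mu U)) ≤
        1 / k * (∫ x, ‖fderiv ℝ f x‖ ^ 2 ∂(mu U)) + k * ∫ x, ‖fderiv ℝ u x‖ ^ 2 ∂(mu U) := by
      have := mul_le_mul_of_nonneg_left e3 (le_of_lt (one_div_pos.mpr hk))
      calc _ = 1 / k * (2 * k * (∫ x, (∑ i, D (b i) u x * D (b i) f x) ∂(mu U))) := by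
            field_simp
        _ ≤ _ := this
        _ = _ := by field_simp
    linarith
  calc _ ≤ M * (1 / k * ∫ x, ‖fderiv ℝ f x‖ ^ 2 ∂(mu U)) := mul_le_mul_of_nonneg_left key hM.le
    _ = _ := by ring

namespace C29

/-- A test function with positive variance. -/
theorem exists_var_pos [Nontrivial E] {U : E → ℝ} {t C : ℝ} (hU : Pot U t C)
    [IsProbabilityMeasure (mu U)] : ∃ f : E → ℝ, ContDiff ℝ 1 f ∧ HasCompactSupport f ∧
      0 < (mu U).real univ * (∫ x, f x ^ 2 ∂(mu U)) - (∫ x, f x ∂(mu U)) ^ 2 := by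
  classical
  let f : ContDiffBump (0 : E) := ⟨1, 2, one_pos, one_lt_two⟩
  have hf : ContDiff ℝ 1 (f : E → ℝ) := f.contDiff
  have hc : HasCompactSupport (f : E → ℝ) := f.hasCompactSupport
  refine ⟨f, hf, hc, ?_⟩
  set c := ∫ x, f x ∂(mu U) with hcdef
  have hM : (mu U).real univ = 1 := by simp
  have hm : c * (mu U).real univ = ∫ x, f x ∂(mu U) := by rw [hM, mul_one]
  rw [rel2 hU hf hc c hm, hM, one_mul]
  have hφ : BC (fun x => f x - c) := (BC.of_compact hf.continuous hc).sub (BC.const c)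
  have hnn : 0 ≤ ∫ x, (f x - c) ^ 2 ∂(mu U) := integral_nonneg fun x => sq_nonneg _
  rcases hnn.lt_or_eq with h | h
  · exact h
  exfalso
  have h0 : (fun x => (f x - c) ^ 2) =ᵐ[mu U] 0 :=
    (integral_eq_zero_iff_of_nonneg (fun x => sq_nonneg _) (hφ.sq.integrable (mu U))).1 h.symm
  have hac : (volume : Measure E) ≪ mu U := by
    refine withDensity_absolutelyContinuous' ?_ (Eventually.of_forall fun x => ?_)
    · exact (ENNReal.continuous_ofReal.comp
        (Real.continuous_exp.comp hU.smooth.continuous.neg)).aemeasurable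
    · simp [Real.exp_pos]
  have h1 : (fun x => (f x - c) ^ 2) =ᵐ[volume] (fun _ => (0 : ℝ)) := hac.ae_le h0
  have h2 : (fun x => (f x - c) ^ 2) = (fun _ => (0 : ℝ)) :=
    (Continuous.ae_eq_iff_eq volume hφ.sq.1 continuous_const).1 h1
  have h3 : f (0 : E) = 1 := f.one_of_mem_closedBall (Metric.mem_closedBall_self (by positivity))
  obtain ⟨x, hx⟩ := NormedSpace.exists_lt_norm ℝ E 2
  have h4 : f x = 0 := f.zero_of_le_dist (by rw [dist_zero_right]; exact hx.le)
  have h5 := congrFun h2 0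
  have h6 := congrFun h2 x
  simp only [h3, h4] at h5 h6
  have h7 : c = 0 := by simpa using h6
  rw [h7] at h5
  norm_num at h5

end C29

theorem near_eig [Nontrivial E] (b : OrthonormalBasis ι ℝ E) {U : E → ℝ} {t C : ℝ}
    (hU : Pot U t C) [IsProbabilityMeasure (mu U)] :
    ∃ lam : ℝ, 0 < lam ∧ GPC (mu U) (1 / lam) ∧ ∀ ε : ℝ, 0 < ε → ∃ u : E → ℝ, Tst u ∧
      0 < ∫ x, ‖fderiv ℝ u x‖ ^ 2 ∂(mu U) ∧
      ∫ x, (LO b U u x + lam * (u x - ∫ y, u y ∂(mu U))) ^ 2 ∂(mu U)
        ≤ ε * ∫ x, ‖fderiv ℝ u x‖ ^ 2 ∂(mu U) := by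
  have hM : (mu U).real univ = 1 := by simp
  have hU1 : ContDiff ℝ 1 U := hU.smooth.of_le (by norm_num)
  -- the Poincare inequality with constant 1/t
  have hgt : GPC (mu U) (1 / t) := by
    refine gpc_of_coer b hU hU.pos fun u hu => ?_
    have h := bochner b (q := fun _ => t) hU.smooth continuous_const (fun x v => hU.hess x v)
      (by simpa using contDiff_infty.mp hu.1 3) hu.2
    have h1 : 0 ≤ ∫ x, (∑ i, ‖fderiv ℝ (D (b i) u) x‖ ^ 2) ∂(mu U) :=
      integral_nonneg fun x => Finset.sum_nonneg fun i _ => sq_nonneg _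
    rw [integral_const_mul] at h
    linarith
  set S : Set ℝ := {L : ℝ | 0 ≤ L ∧ GPC (mu U) L} with hS
  have hSne : S.Nonempty := ⟨1 / t, (one_div_pos.2 hU.pos).le, hgt⟩
  have hSb : BddBelow S := ⟨0, fun L hL => hL.1⟩
  set Lo := sInf S with hLo
  have hLo0 : 0 ≤ Lo := le_csInf hSne fun L hL => hL.1
  have hgLo : GPC (mu U) Lo := by
    intro f hf hc
    set G := ∫ x, ‖fderiv ℝ f x‖ ^ 2 ∂(mu U) with hG
    have hG0 : 0 ≤ G := integral_nonneg fun x => sq_nonneg _
    rw [hM, one_mul, one_mul]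
    have hall : ∀ L ∈ S, (∫ x, f x ^ 2 ∂(mu U)) - (∫ x, f x ∂(mu U)) ^ 2 ≤ L * G := by
      intro L hL
      have := hL.2 f hf hc
      rwa [hM, one_mul, one_mul] at this
    rcases hG0.lt_or_eq with hpos | hzero
    · rw [← div_le_iff₀ hpos]
      exact le_csInf hSne fun L hL => (div_le_iff₀ hpos).2 (hall L hL)
    · have := hall _ hSne.choose_spec
      rw [← hzero, mul_zero] at this ⊢
      exact this
  have hLopos : 0 < Lo := by
    rcases hLo0.lt_or_eq with h | h
    · exact h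
    exfalso
    obtain ⟨f, hf, hc, hpos⟩ := exists_var_pos hU
    have := hgLo f hf hc
    rw [← h, zero_mul] at this
    linarith
  set lam := 1 / Lo with hlamdef
  have hlam : 0 < lam := one_div_pos.2 hLopos
  have hlamLo : 1 / lam = Lo := by rw [hlamdef]; simp
  refine ⟨lam, hlam, by rw [hlamLo]; exact hgLo, fun ε hε => ?_⟩
  set δ := ε / (16 * (lam + ε)) with hδdef
  have hδ : 0 < δ := by positivity
  have hδ1 : δ ≤ 1 / 16 := by
    rw [hδdef, div_le_div_iff₀ (by positivity) (by norm_num)]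
    nlinarith
  have hδε : 16 * δ * (lam + ε) = ε := by
    rw [hδdef]; field_simp
  set L := 1 / (lam * (1 + δ)) with hLdef
  have hL0 : 0 < L := by positivity
  have hLlt : L < Lo := by
    rw [← hlamLo, hLdef]
    apply one_div_lt_one_div_of_lt hlam
    nlinarith
  have hnot : ¬ GPC (mu U) L := fun h => absurd (csInf_le hSb ⟨hL0.le, h⟩) (not_le.2 hLlt)
  unfold GPC at hnot
  push Not at hnot
  obtain ⟨f, hf, hc, hlt⟩ := hnot
  set c := ∫ x, f x ∂(mu U) with hcdef
  have hm : c * (mu U).real univ = ∫ x, f x ∂(mu U) := by rw [hM, mul_one]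
  rw [rel2 hU hf hc c hm, hM, one_mul, one_mul] at hlt
  set V := ∫ x, (f x - c) ^ 2 ∂(mu U) with hV
  set G := ∫ x, ‖fderiv ℝ f x‖ ^ 2 ∂(mu U) with hG
  have hG0 : 0 ≤ G := integral_nonneg fun x => sq_nonneg _
  have hVpos : 0 < V := lt_of_le_of_lt (mul_nonneg hL0.le hG0) hlt
  obtain ⟨u, hu, hue⟩ := dense_range b hU hf hc hm (mul_pos hδ hVpos)
  have e1 := rel1 b hU hu hf hc c
  have e3 := rel3 b hU hu hf hc lam
  have e7 := final_est b hU hlam (by rw [hlamLo]; exact hgLo) hu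
  have hLb := LO_BC b hU1 hu
  have hφ : BC (fun x => f x - c) := (BC.of_compact hf.continuous hc).sub (BC.const c)
  have e6 : V ≤ 2 * (∫ x, (LO b U u x) ^ 2 ∂(mu U))
      + 2 * ∫ x, (LO b U u x + (f x - c)) ^ 2 ∂(mu U) := by
    have i1 := (hLb.sq).integrable (mu U)
    have i2 := ((hLb.add hφ).sq).integrable (mu U)
    rw [← integral_const_mul, ← integral_const_mul,
      ← integral_add (i1.const_mul _) (i2.const_mul _)]
    refine integral_mono (hφ.sq.integrable (mu U)) ((i1.const_mul _).add (i2.const_mul _))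
      fun x => ?_
    simp only
    nlinarith [sq_nonneg (2 * LO b U u x + (f x - c))]
  set J := ∫ x, (LO b U u x) ^ 2 ∂(mu U) with hJ
  set r := ∫ x, (LO b U u x + (f x - c)) ^ 2 ∂(mu U) with hr
  set P := ∫ x, (∑ i, D (b i) u x * D (b i) f x) ∂(mu U) with hP
  set I := ∫ x, ‖fderiv ℝ u x‖ ^ 2 ∂(mu U) with hI
  have hGV : G ≤ lam * (1 + δ) * V := by
    have : G = lam * (1 + δ) * (L * G) := by rw [hLdef]; field_simp
    rw [this]
    exact mul_le_mul_of_nonneg_left hlt.le (by positivity)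
  have h1 : lam * (J + V - r) ≤ lam * ((1 + δ) * V + lam * I) := by
    have : lam * (J + V - r) = 2 * lam * P := by rw [e1]; ring
    rw [this]
    calc _ ≤ G + lam ^ 2 * I := e3
      _ ≤ lam * (1 + δ) * V + lam ^ 2 * I := by linarith
      _ = _ := by ring
  have h2 : J + V - r ≤ (1 + δ) * V + lam * I := le_of_mul_le_mul_left h1 hlam
  have h3 : J ≤ 2 * δ * V + lam * I := by linarith
  have h4 : V ≤ 4 * J := by nlinarith
  have h5 : J ≤ 8 * δ * J + lam * I := by nlinarith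
  have hJpos : 0 < J := by linarith
  have hI0 : 0 < I := by
    by_contra hneg
    push Not at hneg
    nlinarith [mul_nonneg hlam.le (neg_nonneg.2 hneg)]
  refine ⟨u, hu, hI0, e7.trans ?_⟩
  -- J - lam I ≤ ε I
  have h6 : (1 - 8 * δ) * J ≤ lam * I := by linarith
  have h7 : lam ≤ (1 - 8 * δ) * (lam + ε) := by nlinarith
  have h8 : (1 - 8 * δ) * J ≤ (1 - 8 * δ) * ((lam + ε) * I) := by
    calc _ ≤ lam * I := h6
      _ ≤ ((1 - 8 * δ) * (lam + ε)) * I := mul_le_mul_of_nonneg_right h7 hI0.le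
      _ = _ := by ring
  have h9 : J ≤ (lam + ε) * I := le_of_mul_le_mul_left h8 (by linarith)
  linarith

end Pool.Agent.H84.Sym
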