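import Pool.Agent.H29.Sym.BC

/-! Module S of project SYM: selection of the symmetry. -/

set_option autoImplicit false

open MeasureTheory Set Filter Topology
open scoped ContDiff Pointwise

namespace Pool.Agent.H84.Sym

variable {E : Type*} [NormedAddCommGroup E] [InnerProductSpace ℝ E]
    [FiniteDimensional ℝ E] [MeasurableSpace E] [BorelSpace E]
variable {ι : Type*} [Fintype ι]

open C29

namespace S29

omit [MeasurableSpace E] [BorelSpace E] in
/-- Some symmetry displaces every nonzero vector by a fixed proportion. -/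
theorem exists_disp {G : Set (E ≃ₗᵢ[ℝ] E)} (hfix : ∀ p : E, (∀ g ∈ G, g p = p) → p = 0) :
    ∃ c : ℝ, 0 < c ∧ ∀ p : E, p ≠ 0 → ∃ g ∈ G, c * ‖p‖ ≤ ‖g.symm p - p‖ := by
  have key : ∃ c : ℝ, 0 < c ∧ ∀ p ∈ Metric.sphere (0 : E) 1, ∃ g ∈ G,
      c ≤ ‖g.symm p - p‖ := by
    refine (isCompact_sphere (0 : E) 1).induction_on
      (p := fun s => ∃ c : ℝ, 0 < c ∧ ∀ p ∈ s, ∃ g ∈ G, c ≤ ‖g.symm p - p‖) ?_ ?_ ?_ ?_
    · exact ⟨1, one_pos, by simp⟩
    · rintro s t hst ⟨c, hc, h⟩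
      exact ⟨c, hc, fun p hp => h p (hst hp)⟩
    · rintro s t ⟨c, hc, h⟩ ⟨d, hd, h'⟩
      refine ⟨min c d, lt_min hc hd, ?_⟩
      rintro p (hp | hp)
      · obtain ⟨g, hg, h1⟩ := h p hp
        exact ⟨g, hg, (min_le_left _ _).trans h1⟩
      · obtain ⟨g, hg, h1⟩ := h' p hp
        exact ⟨g, hg, (min_le_right _ _).trans h1⟩
    · intro p hp
      have hp0 : p ≠ 0 := by
        rintro rfl
        simp at hp
      have hex : ∃ g ∈ G, g p ≠ p := by
        by_contra hcon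
        push Not at hcon
        exact hp0 (hfix p hcon)
      obtain ⟨g, hg, hne⟩ := hex
      have hpos : 0 < ‖g.symm p - p‖ := by
        refine norm_pos_iff.2 (sub_ne_zero.2 fun h => hne ?_)
        have := congrArg g h
        rw [g.apply_symm_apply] at this
        exact this.symm
      refine ⟨{q | ‖g.symm p - p‖ / 2 < ‖g.symm q - q‖}, mem_nhdsWithin_of_mem_nhds ?_,
        ‖g.symm p - p‖ / 2, half_pos hpos, fun q hq => ⟨g, hg, le_of_lt hq⟩⟩
      refine IsOpen.mem_nhds ?_ (by simpa using hpos)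
      exact isOpen_lt continuous_const ((g.symm.continuous.sub continuous_id).norm)
  obtain ⟨c, hc, h⟩ := key
  refine ⟨c, hc, fun p hp => ?_⟩
  have hn : 0 < ‖p‖ := norm_pos_iff.2 hp
  obtain ⟨g, hg, h1⟩ := h (‖p‖⁻¹ • p) (by simp [norm_smul, hn.ne'])
  refine ⟨g, hg, ?_⟩
  have h2 : g.symm (‖p‖⁻¹ • p) - ‖p‖⁻¹ • p = ‖p‖⁻¹ • (g.symm p - p) := by
    rw [smul_sub, map_smul]
  rw [h2, norm_smul, norm_inv, norm_norm] at h1
  calc c * ‖p‖ ≤ (‖p‖⁻¹ * ‖g.symm p - p‖) * ‖p‖ := mul_le_mul_of_nonneg_right h1 hn.le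
    _ = _ := by field_simp

omit [InnerProductSpace ℝ E] [FiniteDimensional ℝ E] in
/-- Jensen. -/
theorem sq_int_le (μ : Measure E) [IsProbabilityMeasure μ] {F : E → ℝ} (hF : BC F) :
    (∫ x, F x ∂μ) ^ 2 ≤ ∫ x, F x ^ 2 ∂μ := by
  set c := ∫ x, F x ∂μ with hc
  have h1 := hF.sq.integrable μ
  have h2 := hF.integrable μ
  have h0 : 0 ≤ ∫ x, (F x - c) ^ 2 ∂μ := integral_nonneg fun x => sq_nonneg _
  have h3 : ∫ x, (F x - c) ^ 2 ∂μ = (∫ x, F x ^ 2 ∂μ) - c ^ 2 := by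
    calc ∫ x, (F x - c) ^ 2 ∂μ
        = ∫ x, (F x ^ 2 - 2 * c * F x) + c ^ 2 ∂μ := by
          congr 1; funext x; ring
      _ = _ := by
        have h12 : Integrable (fun x => F x ^ 2 - 2 * c * F x) μ :=
          h1.sub (h2.const_mul (2 * c))
        rw [integral_add h12 (integrable_const _),
          integral_sub h1 (h2.const_mul _), integral_const_mul, integral_const]
        simp only [← hc, probReal_univ, smul_eq_mul, one_mul]
        ring
  linarith

omit [FiniteDimensional ℝ E] [MeasurableSpace E] [BorelSpace E] in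
theorem D_expand (b : OrthonormalBasis ι ℝ E) (f : E → ℝ) (e x : E) :
    D e f x = ∑ i, inner ℝ (b i) e * D (b i) f x := by
  simp only [D]
  conv_lhs => rw [← b.sum_repr' e]
  simp

/-- The mean gradient. -/
theorem mean_grad (b : OrthonormalBasis ι ℝ E) {U u : E → ℝ} [IsProbabilityMeasure (mu U)]
    (hu : Tst u) (e : E) :
    ∫ x, D e u x ∂(mu U) = inner ℝ (∑ i, (∫ x, D (b i) u x ∂(mu U)) • b i) e := by
  have hu1 : ContDiff ℝ 1 u := hu.1.of_le (by exact_mod_cast (le_top : (1 : ℕ∞) ≤ ⊤))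
  rw [sum_inner]
  simp only [real_inner_smul_left]
  rw [funext fun x => D_expand b u e x]
  rw [integral_finsetSum]
  · refine Finset.sum_congr rfl fun i _ => ?_
    rw [integral_const_mul, mul_comm]
  · intro i _
    exact ((D_BC hu1 hu.2 (b i)).integrable (mu U)).const_mul _

omit [FiniteDimensional ℝ E] [MeasurableSpace E] [BorelSpace E] in
theorem normsq_expand (b : OrthonormalBasis ι ℝ E) (c : ι → ℝ) :
    ‖∑ i, c i • b i‖ ^ 2 = ∑ i, c i ^ 2 := by
  rw [← real_inner_self_eq_norm_sq, sum_inner]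
  refine Finset.sum_congr rfl fun i _ => ?_
  rw [real_inner_smul_left, b.orthonormal.inner_right_fintype]
  ring

/-- The mean gradient of a near-eigenfunction is not small. -/
theorem mean_lower (b : OrthonormalBasis ι ℝ E) {U u : E → ℝ} {t C lam δ s : ℝ} (hU : Pot U t C)
    [IsProbabilityMeasure (mu U)] (hlam : 0 < lam) (hpc : GPC (mu U) (1 / lam)) (hu : Tst u)
    (hs : 0 < s)
    (hnear : ∫ x, (LO b U u x + lam * (u x - ∫ y, u y ∂(mu U))) ^ 2 ∂(mu U)
        ≤ δ * ∫ x, ‖fderiv ℝ u x‖ ^ 2 ∂(mu U)) :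
    (t - s * lam - (1 + 1 / s) * δ) * ∫ x, ‖fderiv ℝ u x‖ ^ 2 ∂(mu U) ≤
      lam * ‖∑ i, (∫ x, D (b i) u x ∂(mu U)) • b i‖ ^ 2 := by
  have hM : (mu U).real univ = 1 := by simp
  have hU1 : ContDiff ℝ 1 U := hU.smooth.of_le (by norm_num)
  have hu1 : ContDiff ℝ 1 u := hu.1.of_le (by exact_mod_cast (le_top : (1 : ℕ∞) ≤ ⊤))
  have hL := LO_BC b hU1 hu
  have hφ : BC (fun x => u x - ∫ y, u y ∂(mu U)) := (tst_BC hu).sub (BC.const _)
  -- Poincare for u
  have h2 := rel2 hU hu1 hu.2 (∫ y, u y ∂(mu U)) (by rw [hM, mul_one])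
  have h3 := hpc u hu1 hu.2
  rw [h2, hM, one_mul, one_mul] at h3
  -- Poincare for the derivatives of u
  have hbo := bochner b (q := fun _ => t) hU.smooth continuous_const (fun x v => hU.hess x v)
    (by simpa using contDiff_infty.mp hu.1 3) hu.2
  rw [integral_const_mul] at hbo
  have hgr : ∀ i, BC (fun x => ‖fderiv ℝ (D (b i) u) x‖ ^ 2) := fun i =>
    grad_BC ((tst_D hu (b i)).1.of_le (by exact_mod_cast (le_top : (1 : ℕ∞) ≤ ⊤)))
      (tst_D hu (b i)).2
  rw [integral_finsetSum _ (fun i _ => (hgr i).integrable (mu U))] at hbo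
  have hpi : ∀ i, lam * ((∫ x, D (b i) u x ^ 2 ∂(mu U)) - (∫ x, D (b i) u x ∂(mu U)) ^ 2) ≤
      ∫ x, ‖fderiv ℝ (D (b i) u) x‖ ^ 2 ∂(mu U) := by
    intro i
    have := hpc (D (b i) u)
      ((tst_D hu (b i)).1.of_le (by exact_mod_cast (le_top : (1 : ℕ∞) ≤ ⊤))) (tst_D hu (b i)).2
    rw [hM, one_mul, one_mul] at this
    calc _ ≤ lam * (1 / lam * ∫ x, ‖fderiv ℝ (D (b i) u) x‖ ^ 2 ∂(mu U)) :=
          mul_le_mul_of_nonneg_left this hlam.le
      _ = _ := by field_simp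
  have hsum := Finset.sum_le_sum fun i (_ : i ∈ Finset.univ) => hpi i
  rw [← Finset.mul_sum, Finset.sum_sub_distrib] at hsum
  have hI : ∑ i, ∫ x, D (b i) u x ^ 2 ∂(mu U) = ∫ x, ‖fderiv ℝ u x‖ ^ 2 ∂(mu U) := by
    rw [← integral_finsetSum _ (fun i _ => ((D_BC hu1 hu.2 (b i)).sq).integrable (mu U))]
    simp only [norm_fderiv_sq b u]
  rw [hI] at hsum
  rw [normsq_expand b]
  -- upper bound of J
  have hJ : ∫ x, (LO b U u x) ^ 2 ∂(mu U) ≤
      (1 + 1 / s) * (∫ x, (LO b U u x + lam * (u x - ∫ y, u y ∂(mu U))) ^ 2 ∂(mu U))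
      + (1 + s) * lam ^ 2 * ∫ x, (u x - ∫ y, u y ∂(mu U)) ^ 2 ∂(mu U) := by
    have i1 := ((hL.add ((BC.const lam).mul hφ)).sq).integrable (mu U)
    have i2 := (hφ.sq).integrable (mu U)
    rw [← integral_const_mul, ← integral_const_mul,
      ← integral_add (i1.const_mul _) (i2.const_mul _)]
    refine integral_mono (hL.sq.integrable (mu U)) ((i1.const_mul _).add (i2.const_mul _))
      fun x => ?_
    simp only
    set r := LO b U u x + lam * (u x - ∫ y, u y ∂(mu U)) with hr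
    set φ := u x - ∫ y, u y ∂(mu U) with hφdef
    have e1 : LO b U u x = r - lam * φ := by rw [hr]; ring
    rw [e1]
    have e2 : 0 ≤ (r + s * (lam * φ)) ^ 2 / s := by positivity
    have e3 : (r + s * (lam * φ)) ^ 2 / s = 1 / s * r ^ 2 + 2 * (lam * r * φ)
        + s * lam ^ 2 * φ ^ 2 := by
      field_simp
      ring
    nlinarith
  set I := ∫ x, ‖fderiv ℝ u x‖ ^ 2 ∂(mu U) with hIdef
  have hI0 : 0 ≤ I := integral_nonneg fun x => sq_nonneg _
  have hW : (1 + s) * lam ^ 2 * ∫ x, (u x - ∫ y, u y ∂(mu U)) ^ 2 ∂(mu U) ≤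
      (1 + s) * lam * I := by
    calc _ ≤ (1 + s) * lam ^ 2 * (1 / lam * I) := mul_le_mul_of_nonneg_left h3 (by positivity)
      _ = _ := by field_simp
  have hr : (1 + 1 / s) * (∫ x, (LO b U u x + lam * (u x - ∫ y, u y ∂(mu U))) ^ 2 ∂(mu U)) ≤
      (1 + 1 / s) * (δ * I) := mul_le_mul_of_nonneg_left hnear (by positivity)
  nlinarith

/-- The displaced function. -/
theorem disp_est (b : OrthonormalBasis ι ℝ E) {U u : E → ℝ} {t C lam δ : ℝ} (hU : Pot U t C)
    [IsProbabilityMeasure (mu U)] (hlam : 0 < lam) (hu : Tst u) (g : E ≃ₗᵢ[ℝ] E)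
    (hg : ∀ x, U (g x) = U x)
    (hnear : ∫ x, (LO b U u x + lam * (u x - ∫ y, u y ∂(mu U))) ^ 2 ∂(mu U)
        ≤ δ * ∫ x, ‖fderiv ℝ u x‖ ^ 2 ∂(mu U)) :
    (∫ x, (LO b U (fun y => u (g y) - u y) x + lam * (u (g x) - u x)) ^ 2 ∂(mu U)
        ≤ 4 * δ * ∫ x, ‖fderiv ℝ u x‖ ^ 2 ∂(mu U)) ∧
    ‖g.symm (∑ i, (∫ x, D (b i) u x ∂(mu U)) • b i)
      - ∑ i, (∫ x, D (b i) u x ∂(mu U)) • b i‖ ^ 2 ≤
      2 * lam * (∫ x, (u (g x) - u x) ^ 2 ∂(mu U))
        + δ / lam * ∫ x, ‖fderiv ℝ u x‖ ^ 2 ∂(mu U) := by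
  have hM : (mu U).real univ = 1 := by simp
  have hU1 : ContDiff ℝ 1 U := hU.smooth.of_le (by norm_num)
  have hu1 : ContDiff ℝ 1 u := hu.1.of_le (by exact_mod_cast (le_top : (1 : ℕ∞) ≤ ⊤))
  have hu2 : ContDiff ℝ 2 u := by simpa using contDiff_infty.mp hu.1 2
  have hug : Tst (fun y => u (g y)) := ⟨hu.1.comp g.contDiff,
    hu.2.comp_homeomorph g.toHomeomorph⟩
  have hug1 : ContDiff ℝ 1 (fun y => u (g y)) :=
    hug.1.of_le (by exact_mod_cast (le_top : (1 : ℕ∞) ≤ ⊤))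
  have hf : Tst (fun y => u (g y) - u y) := ⟨hug.1.sub hu.1, hug.2.sub hu.2⟩
  have hf1 : ContDiff ℝ 1 (fun y => u (g y) - u y) :=
    hf.1.of_le (by exact_mod_cast (le_top : (1 : ℕ∞) ≤ ⊤))
  have hL := LO_BC b hU1 hu
  have hLf := LO_BC b hU1 hf
  have hDsub : ∀ e x, D e (fun y => u (g y) - u y) x = D e (fun y => u (g y)) x - D e u x := by
    intro e x
    simp only [D]
    rw [fderiv_fun_sub (hug1.differentiable (by norm_num)).differentiableAt
      (hu1.differentiable (by norm_num)).differentiableAt]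
    rfl
  have hLOsub : ∀ x, LO b U (fun y => u (g y) - u y) x = LO b U u (g x) - LO b U u x := by
    intro x
    rw [← LO_comp_isom b g hU1 hg hu2 x]
    unfold LO
    have h1 : ∀ i, D (b i) (fun y => u (g y) - u y) =
        fun x => D (b i) (fun y => u (g y)) x - D (b i) u x := fun i => funext (hDsub (b i))
    have h2 : ∀ i, D (b i) (D (b i) (fun y => u (g y) - u y)) x =
        D (b i) (D (b i) (fun y => u (g y))) x - D (b i) (D (b i) u) x := by
      intro i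
      rw [h1 i]
      have h3 := fderiv_fun_sub (𝕜 := ℝ) (x := x)
        (((tst_D hug (b i)).1.differentiable (by simp)).differentiableAt)
        (((tst_D hu (b i)).1.differentiable (by simp)).differentiableAt)
      exact congrArg (fun ℓ => ℓ (b i)) h3
    simp only [h2, hDsub, mul_sub, Finset.sum_sub_distrib]
    ring
  set m := ∫ y, u y ∂(mu U) with hm
  have hres : BC (fun x => LO b U u x + lam * (u x - m)) :=
    hL.add ((BC.const lam).mul ((tst_BC hu).sub (BC.const _)))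
  have hresg : BC (fun x => LO b U u (g x) + lam * (u (g x) - m)) :=
    ⟨hres.1.comp g.continuous, hres.2.choose, fun x => hres.2.choose_spec (g x)⟩
  have hA : ∫ x, (LO b U (fun y => u (g y) - u y) x + lam * (u (g x) - u x)) ^ 2 ∂(mu U)
        ≤ 4 * δ * ∫ x, ‖fderiv ℝ u x‖ ^ 2 ∂(mu U) := by
    have i1 := hres.sq.integrable (mu U)
    have i2 := hresg.sq.integrable (mu U)
    have e1 : ∫ x, (LO b U u (g x) + lam * (u (g x) - m)) ^ 2 ∂(mu U) =
        ∫ x, (LO b U u x + lam * (u x - m)) ^ 2 ∂(mu U) :=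
      integral_comp_isom hU.smooth.continuous g hg
        (fun x => (LO b U u x + lam * (u x - m)) ^ 2)
    calc _ ≤ ∫ x, (2 * (LO b U u (g x) + lam * (u (g x) - m)) ^ 2
          + 2 * (LO b U u x + lam * (u x - m)) ^ 2) ∂(mu U) := by
          refine integral_mono ?_ ((i2.const_mul _).add (i1.const_mul _)) fun x => ?_
          · exact ((hLf.add ((BC.const lam).mul (tst_BC hf))).sq).integrable (mu U)
          · simp only
            rw [hLOsub x]
            nlinarith [sq_nonneg ((LO b U u (g x) + lam * (u (g x) - m))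
              + (LO b U u x + lam * (u x - m)))]
      _ = 4 * ∫ x, (LO b U u x + lam * (u x - m)) ^ 2 ∂(mu U) := by
          rw [integral_add (i2.const_mul _) (i1.const_mul _), integral_const_mul,
            integral_const_mul, e1]
          ring
      _ ≤ _ := by linarith
  refine ⟨hA, ?_⟩
  set I := ∫ x, ‖fderiv ℝ u x‖ ^ 2 ∂(mu U) with hI
  set p := ∑ i, (∫ x, D (b i) u x ∂(mu U)) • b i with hp
  -- mean derivatives of f
  have hmean : ∀ e, ∫ x, D e (fun y => u (g y) - u y) x ∂(mu U) = inner ℝ (g.symm p - p) e := by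
    intro e
    have j1 := (D_BC hug1 hug.2 e).integrable (mu U)
    have j2 := (D_BC hu1 hu.2 e).integrable (mu U)
    rw [funext (hDsub e), integral_sub j1 j2, mean_grad b hu e, inner_sub_left]
    congr 1
    rw [funext (fun x => D_comp_isom g hu1 e x),
      integral_comp_isom hU.smooth.continuous g hg (D (g e) u), mean_grad b hu (g e)]
    rw [← hp, ← g.symm.inner_map_map p (g e), g.symm_apply_apply]
  have hG : ‖g.symm p - p‖ ^ 2 ≤ ∫ x, ‖fderiv ℝ (fun y => u (g y) - u y) x‖ ^ 2 ∂(mu U) := by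
    have k1 : ‖g.symm p - p‖ ^ 2 = ∑ i, (inner ℝ (g.symm p - p) (b i)) ^ 2 := by
      rw [← b.sum_sq_norm_inner_left (g.symm p - p)]
      simp
    have k2 : ∫ x, ‖fderiv ℝ (fun y => u (g y) - u y) x‖ ^ 2 ∂(mu U) =
        ∑ i, ∫ x, (D (b i) (fun y => u (g y) - u y) x) ^ 2 ∂(mu U) := by
      rw [← integral_finsetSum _ (fun i _ => ((D_BC hf1 hf.2 (b i)).sq).integrable (mu U))]
      simp only [norm_fderiv_sq b (fun y => u (g y) - u y)]
    rw [k1, k2]
    refine Finset.sum_le_sum fun i _ => ?_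
    rw [← hmean]
    exact sq_int_le (mu U) (D_BC hf1 hf.2 (b i))
  -- Green
  have hgr : ∫ x, ‖fderiv ℝ (fun y => u (g y) - u y) x‖ ^ 2 ∂(mu U) =
      - ∫ x, LO b U (fun y => u (g y) - u y) x * (u (g x) - u x) ∂(mu U) := by
    rw [green b hU1 (by simpa using contDiff_infty.mp hf.1 2) hf1 (Or.inl hf.2), neg_neg]
    congr 1
    funext x
    rw [norm_fderiv_sq b]
    refine Finset.sum_congr rfl fun i _ => ?_
    ring
  have hfin : - ∫ x, LO b U (fun y => u (g y) - u y) x * (u (g x) - u x) ∂(mu U) ≤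
      2 * lam * (∫ x, (u (g x) - u x) ^ 2 ∂(mu U)) + 1 / (4 * lam) *
      ∫ x, (LO b U (fun y => u (g y) - u y) x + lam * (u (g x) - u x)) ^ 2 ∂(mu U) := by
    have j1 := ((tst_BC hf).sq).integrable (mu U)
    have j2 := ((hLf.add ((BC.const lam).mul (tst_BC hf))).sq).integrable (mu U)
    rw [← integral_neg, ← integral_const_mul, ← integral_const_mul,
      ← integral_add (j1.const_mul _) (j2.const_mul _)]
    refine integral_mono ((hLf.mul (tst_BC hf)).integrable (mu U)).neg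
      ((j1.const_mul _).add (j2.const_mul _)) fun x => ?_
    simp only
    set L := LO b U (fun y => u (g y) - u y) x
    set f := u (g x) - u x
    have e1 : 0 ≤ ((L + lam * f) + 2 * lam * f) ^ 2 / (4 * lam) := by positivity
    have e2 : ((L + lam * f) + 2 * lam * f) ^ 2 / (4 * lam) =
        1 / (4 * lam) * (L + lam * f) ^ 2 + (L + lam * f) * f + lam * f ^ 2 := by
      field_simp
      ring
    nlinarith
  rw [hgr] at hG
  have hA' : 1 / (4 * lam) *
      (∫ x, (LO b U (fun y => u (g y) - u y) x + lam * (u (g x) - u x)) ^ 2 ∂(mu U)) ≤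
      δ / lam * I := by
    calc _ ≤ 1 / (4 * lam) * (4 * δ * I) := mul_le_mul_of_nonneg_left hA (by positivity)
      _ = _ := by field_simp
  linarith

end S29

open S29

theorem select (b : OrthonormalBasis ι ℝ E) {U : E → ℝ} {t C : ℝ} (hU : Pot U t C)
    [IsProbabilityMeasure (mu U)] {G : Set (E ≃ₗᵢ[ℝ] E)}
    (hinv : ∀ g ∈ G, ∀ x, U (g x) = U x) (hfix : ∀ p : E, (∀ g ∈ G, g p = p) → p = 0)
    {lam : ℝ} (hlam : 0 < lam) (hpc : GPC (mu U) (1 / lam))
    (hnear : ∀ ε : ℝ, 0 < ε → ∃ u : E → ℝ, Tst u ∧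
      0 < ∫ x, ‖fderiv ℝ u x‖ ^ 2 ∂(mu U) ∧
      ∫ x, (LO b U u x + lam * (u x - ∫ y, u y ∂(mu U))) ^ 2 ∂(mu U)
        ≤ ε * ∫ x, ‖fderiv ℝ u x‖ ^ 2 ∂(mu U)) {ε : ℝ} (hε : 0 < ε) :
    ∃ g ∈ G, ∃ u : E → ℝ, Tst u ∧ 0 < ∫ x, (u (g x) - u x) ^ 2 ∂(mu U) ∧
      ∫ x, (LO b U (fun y => u (g y) - u y) x + lam * (u (g x) - u x)) ^ 2 ∂(mu U)
        ≤ ε ^ 2 * ∫ x, (u (g x) - u x) ^ 2 ∂(mu U) := by
  have ht := hU.pos
  obtain ⟨c, hc, hdisp⟩ := exists_disp hfix
  -- parameters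
  set s := t / (4 * lam) with hs
  have hs0 : 0 < s := by positivity
  set κ := c ^ 2 * (t / (2 * lam)) with hκ
  have hκ0 : 0 < κ := by positivity
  set δ := min (t / 4 / (1 + 1 / s)) (min (κ * lam / 2) (ε ^ 2 * κ / (16 * lam))) with hδ
  have hδ0 : 0 < δ := by
    refine lt_min (by positivity) (lt_min (by positivity) (by positivity))
  have hδ1 : (1 + 1 / s) * δ ≤ t / 4 := by
    have : δ ≤ t / 4 / (1 + 1 / s) := min_le_left _ _
    rw [le_div_iff₀ (by positivity)] at this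
    linarith
  have hδ2 : δ / lam ≤ κ / 2 := by
    rw [div_le_iff₀ hlam]
    have : δ ≤ κ * lam / 2 := (min_le_right _ _).trans (min_le_left _ _)
    linarith
  have hδ3 : 16 * lam * δ ≤ ε ^ 2 * κ := by
    have : δ ≤ ε ^ 2 * κ / (16 * lam) := (min_le_right _ _).trans (min_le_right _ _)
    rw [le_div_iff₀ (by positivity)] at this
    linarith
  obtain ⟨u, hu, hI0, hr⟩ := hnear δ hδ0
  have h1 := mean_lower b hU hlam hpc hu hs0 hr
  set I := ∫ x, ‖fderiv ℝ u x‖ ^ 2 ∂(mu U) with hI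
  set p := ∑ i, (∫ x, D (b i) u x ∂(mu U)) • b i with hp
  have hsl : s * lam = t / 4 := by rw [hs]; field_simp
  have h2 : t / 2 * I ≤ lam * ‖p‖ ^ 2 := by
    refine le_trans (mul_le_mul_of_nonneg_right ?_ hI0.le) h1
    linarith
  have hp0 : p ≠ 0 := by
    intro h0
    rw [h0, norm_zero] at h2
    nlinarith
  obtain ⟨g, hg, hd⟩ := hdisp p hp0
  have h3 := disp_est b hU hlam hu g (hinv g hg) hr
  rw [← hI, ← hp] at h3
  have h4 : κ * I ≤ ‖g.symm p - p‖ ^ 2 := by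
    have h5 : (c * ‖p‖) ^ 2 ≤ ‖g.symm p - p‖ ^ 2 :=
      pow_le_pow_left₀ (by positivity) hd 2
    have h6 : t / (2 * lam) * I ≤ ‖p‖ ^ 2 := by
      have : lam * (t / (2 * lam) * I) ≤ lam * ‖p‖ ^ 2 := by
        calc _ = t / 2 * I := by field_simp
          _ ≤ _ := h2
      exact le_of_mul_le_mul_left this hlam
    calc κ * I = c ^ 2 * (t / (2 * lam) * I) := by rw [hκ]; ring
      _ ≤ c ^ 2 * ‖p‖ ^ 2 := mul_le_mul_of_nonneg_left h6 (by positivity)
      _ = (c * ‖p‖) ^ 2 := by ring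
      _ ≤ _ := h5
  set N := ∫ x, (u (g x) - u x) ^ 2 ∂(mu U) with hN
  have h7 : κ / 2 * I ≤ 2 * lam * N := by
    have h8 : δ / lam * I ≤ κ / 2 * I := mul_le_mul_of_nonneg_right hδ2 hI0.le
    linarith [h3.2]
  have hN0 : 0 < N := by
    have h9 : 0 < 2 * lam * N := lt_of_lt_of_le (by positivity) h7
    exact (pos_iff_pos_of_mul_pos h9).1 (by positivity)
  refine ⟨g, hg, u, hu, hN0, h3.1.trans ?_⟩
  -- 4 δ I ≤ ε² N
  have h10 : κ * (4 * δ * I) ≤ κ * (ε ^ 2 * N) := by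
    calc κ * (4 * δ * I) = 8 * δ * (κ / 2 * I) := by ring
      _ ≤ 8 * δ * (2 * lam * N) := mul_le_mul_of_nonneg_left h7 (by positivity)
      _ = (16 * lam * δ) * N := by ring
      _ ≤ (ε ^ 2 * κ) * N := mul_le_mul_of_nonneg_right hδ3 hN0.le
      _ = _ := by ring
  exact le_of_mul_le_mul_left h10 hκ0

end Pool.Agent.H84.Sym
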